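import Pool.Agent.Helper73.HV.St


/-! # HV, module CU -/

set_option autoImplicit false

namespace Pool.Agent.Helper38.HVCU

open Ordinal Cardinal ZFSet Order Pool.Agent.Helper73.HODC Pool.Agent.Helper73.HE
open Pool.Agent.Helper73.HM Pool.Agent.Helper73.HU Pool.Agent.Helper73.HV

theorem cu (h1 : StNMap) (h2 : StTR) : StCU := by
  intro τ lam f hτ hlam hf hS
  have hreg : τ.cof.IsRegular := Cardinal.isRegular_cof (isSuccLimit_of_cof hτ)
  obtain ⟨h, hn, hh⟩ := h1 τ (isSuccLimit_of_cof hτ)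
  have hc : ℵ₀ < (τ.cof.ord).cof := by rw [hreg.cof_ord]; exact hτ
  have hex : ∀ i < lam, ∃ j < τ.cof.ord, i ≤ f (h j) := by
    intro i hi
    have h3 := hS i hi
    rw [← hh] at h3
    have h4 := (h2 h hn τ.cof.ord hc _).1 h3
    obtain ⟨j, hj, -, hjc⟩ := h4 _ (club_univ (isSuccLimit_of_cof hc))
    exact ⟨j, hjc, hj⟩
  by_contra hlt
  rw [not_le] at hlt
  have hsup : (⨆ x : Set.Iio τ.cof.ord, f (h x.1)) < lam := by
    refine Ordinal.lift_iSup_lt_of_lt_cof ?_ ?_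
    · rw [Cardinal.mk_Iio_ordinal, ← Ordinal.lift_cof]
      rw [Cardinal.lift_lift, Cardinal.lift_lt, Cardinal.card_ord]
      exact hlt
    · intro x
      exact hf _
  obtain ⟨j, hj, h5⟩ := hex _ (hlam.succ_lt hsup)
  have h6 := Ordinal.le_iSup (fun x : Set.Iio τ.cof.ord => f (h x.1)) ⟨j, hj⟩
  exact absurd (h5.trans h6) (not_le.2 (Order.lt_succ _))

end Pool.Agent.Helper38.HVCU
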