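import Pool.Agent.Helper19.HV.Curve

/-!
# Project HV (MP_bae8ce_ag), module FS
-/

set_option autoImplicit false

open Polynomial
open scoped TensorProduct

namespace Pool.Agent.Helper19.HV

noncomputable section

open PL

/-- FS: from linear maps on `𝓑_(k+2)` to linear maps on `𝓑_(k+3)`. -/
theorem mFS {G N : Type} [Field G] [AddCommGroup N] [Module ℚ N] (k : ℕ)
    (hRA : R (k + 3) G ≤ AA (k + 3) G) (B : P1 G → (V G →ₗ[ℚ] N)) (hB : Kil (k + 2) B) :
    Kil (k + 3) fun x => B x (cl x) := by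
  intro α hα
  have hker : δ (R (k + 2) G) α = 0 := LinearMap.mem_ker.1 (hRA hα)
  have hle : R (k + 2) G ≤ LinearMap.ker (Finsupp.linearCombination ℚ B) := fun β hβ =>
    LinearMap.mem_ker.2 (hB β hβ)
  let T : ((ZP G ⧸ R (k + 2) G) ⊗[ℚ] V G) →ₗ[ℚ] N :=
    TensorProduct.lift ((R (k + 2) G).liftQ (Finsupp.linearCombination ℚ B) hle)
  let T' : QV G (R (k + 2) G) →ₗ[ℚ] N := T
  have hcomp : T' ∘ₗ δ (R (k + 2) G) = Finsupp.linearCombination ℚ fun x => B x (cl x) := by
    apply Finsupp.lhom_ext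
    intro x c
    have h1 : T' ((R (k + 2) G).mkQ (Finsupp.single x 1) ⊗ₜ[ℚ] cl x) = B x (cl x) := by
      show TensorProduct.lift ((R (k + 2) G).liftQ (Finsupp.linearCombination ℚ B) hle) _ = _
      rw [TensorProduct.lift.tmul, Submodule.mkQ_apply, Submodule.liftQ_apply,
        Finsupp.linearCombination_single, one_smul]
    have h3 : δ (R (k + 2) G) (Finsupp.single x c)
        = c • (show QV G (R (k + 2) G) from
          (R (k + 2) G).mkQ (Finsupp.single x 1) ⊗ₜ[ℚ] cl x) :=
      Finsupp.linearCombination_single ℚ c x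
    rw [LinearMap.comp_apply, h3, map_smul, Finsupp.linearCombination_single]
    exact congrArg (fun v => c • v) h1
  have h2 : T' (δ (R (k + 2) G) α) = 0 := by
    rw [hker, map_zero]
  rw [← LinearMap.comp_apply, hcomp] at h2
  exact h2

end

end Pool.Agent.Helper19.HV
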