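import Pool.Agent.Helper19.HV.StC

/-!
# Project HV (MP_bae8ce_ag), module PRS: injectivity of the presentation
-/

set_option autoImplicit false

open scoped TensorProduct

namespace Pool.Agent.Helper19.HV

noncomputable section

open PL

/-- PRS: injectivity of the presentation. -/
theorem mPRS : sRCM → sMWC → sPRS := by
  intro hRCM hMWC F _ c m hρ hc hm
  have hinj : ∀ k j z, c k j z = 0 → z = 0 := by
    intro k j z hz
    obtain ⟨w, -, hw⟩ := (hMWC F c hc).2 m hm 0
    obtain ⟨ρ, hρ0⟩ := hρ 0
    obtain ⟨-, h2, -⟩ := hRCM F 0 ρ c m hρ0 hc hm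
    have h3 := h2 k j z
    rw [hw, hz, map_zero, map_zero] at h3
    exact h3.symm
  refine ⟨hinj, ?_⟩
  intro k j z y h
  have hy : y = 0 := by
    ext b
    obtain ⟨ρ, hρb⟩ := hρ b
    obtain ⟨h1, h2, h3⟩ := hRCM F b ρ c m hρb hc hm
    have h4 : ρ k j (c k (j + 1) z + y.sum (fun a y => m a k j y)) = 0 := by
      rw [h, map_zero]
    rw [map_add, h1, zero_add, map_finsuppSum, Finsupp.sum, Finset.sum_eq_single b] at h4
    · rw [h2] at h4
      exact h4
    · intro a _ hab
      exact h3 a hab k j (y a)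
    · intro hb
      rw [Finsupp.notMem_support_iff.1 hb, map_zero, map_zero]
  refine ⟨?_, hy⟩
  rw [hy, Finsupp.sum_zero_index, add_zero] at h
  exact hinj k (j + 1) z h

end

end Pool.Agent.Helper19.HV
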